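import Pool.Agent.Helper45_MWK.DAG
import Pool.Agent.Helper15_MWK.INV
import Pool.Agent.Helper64_MWK.SWA
import Pool.Agent.Helper51_MWK.CUT
import Pool.Agent.Helper2_MWK.TWC
import Pool.Agent.Helper13_MWK.SEG
import Pool.Agent.Helper24_MWK.OKM
import Pool.Agent.Helper33_MWK.CVT
import Pool.Agent.Helper98_MWK.CVD
import Pool.Agent.Helper89_MWK.CHE
import Pool.Agent.Helper36_MWK.CH2
import Pool.Agent.Helper46_MWK.TRC
import Pool.Agent.Helper59_MWK.ASG
import Pool.Agent.Helper52_MWK.SFA
import Pool.Agent.Helper99_MWK.SBA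
import Pool.Agent.Helper7_MWK.SDA
import Pool.Agent.Helper64_MWK.SAA
import Pool.Agent.Helper69_MWK.STB
import Pool.Agent.Helper30_MWK.LVM

/-!
# MWKP: the combinatorial rows of MWK, without hypotheses

None of these statements mentions a congruence; they are used for every period.
-/

namespace Pool.Agent.MWKP.T

open Pool.Agent.MWK

theorem dag : DagStmt := H45.dag
theorem inv : InvStmt := H15.inv dag
theorem swa : SwaStmt := H64.swa
theorem cut : CutStmt := H51.cut
theorem twc : TwcStmt := H2.twc
theorem seg : SegStmt := H13.seg cut twc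
theorem okm : OkmStmt := H24.okm
theorem cvt : CvtStmt := H33.cvt
theorem cvd : CvdStmt := H98.cvd cvt
theorem che : CheStmt := H89.che
theorem ch2 : Ch2Stmt := H36.ch2 che
theorem trc : TrcStmt := H46.trc
theorem asg : AsgStmt := H59.asg
theorem sfa : SfaStmt := H52.sfa dag che trc
theorem sba : SbaStmt := H99.sba dag che trc
theorem sda : SdaStmt := H7.sda dag che ch2 trc
theorem saa : SaaStmt := H64.saa dag che trc
theorem stb : StbStmt := H69.stb
theorem lvm : LvmStmt := H30.lvm

end Pool.Agent.MWKP.T
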