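import Pool.Agent.MWK.Stmts

/-!
# MWKP: the varieties `K_n = {xyx = xyx^(n+1), x^2y = x^2yx^n, x^(n+1)y^(n+1) = y^(n+1)x^(n+1)}` (definitions)

MP_23468a_al, full answer, period `n`.  Words are lists of natural numbers, `RR θ l l'`: the identity
`l ≈ l'` belongs to the fully invariant congruence `θ`.  `pre w y`, `Dp k w x`, `Ag`, `AgL`, `Ok`, `Chc`,
`WF` are the definitions of `MWK/Defs.lean` (they do not depend on the period).
A letter is DEAD after `P` if it occurs at least twice in `P`.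
-/

namespace Pool.Agent.MWKP

open Pool.Agent.Helper14_MV Pool.Agent.Helper2_MV Pool.Agent.MWK

/-- `X^k` for a word `X` -/
def pw (k : ℕ) (X : List ℕ) : List ℕ := (List.replicate k X).flatten

/-- the three identities of `K_n` -/
structure Kn (n : ℕ) (θ : FIC) : Prop where
  pos : 1 ≤ n
  g : RR θ [0, 1, 0] (0 :: 1 :: List.replicate (n + 1) 0)
  e : RR θ [0, 0, 1] (0 :: 0 :: 1 :: List.replicate n 0)
  c : RR θ (List.replicate (n + 1) 0 ++ List.replicate (n + 1) 1)
        (List.replicate (n + 1) 1 ++ List.replicate (n + 1) 0)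

/-- `a - b` modulo `n` -/
def df (n a b : ℕ) : ℕ := a + (n - 1) * b

/-! ### word bits -/

/-- word bit of type B -/
def WBn (n m : ℕ) (θ : FIC) : Prop :=
  ∀ (P X C : List ℕ) (qs : List (List ℕ)) (R : List ℕ), qs.length = m → Ok (P ++ C) C qs →
    RR θ (P ++ pw (2 * n) X ++ C ++ qs.flatten ++ R) (P ++ C ++ pw (2 * n) X ++ qs.flatten ++ R)

/-- word bit of type A -/
def WAn (n m : ℕ) (θ : FIC) : Prop :=
  ∀ (P X C : List ℕ) (qs : List (List ℕ)) (R : List ℕ), qs.length = m → Ok (P ++ X ++ C) C qs →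
    RR θ (P ++ X ++ pw n X ++ C ++ qs.flatten ++ R) (P ++ X ++ C ++ pw n X ++ qs.flatten ++ R)

/-- word bit of type D -/
def WDn (n m e : ℕ) (θ : FIC) : Prop :=
  ∀ (P X D C : List ℕ) (qs : List (List ℕ)) (R : List ℕ), qs.length = m →
    Ok (P ++ X ++ D ++ C) C qs →
    (m + 1 - e < m → ∀ l ∈ D,
      2 ≤ (P ++ X ++ D ++ C ++ (qs.take (m + 2 - e)).flatten).count l) →
      RR θ (P ++ X ++ D ++ pw n X ++ C ++ qs.flatten ++ R)
        (P ++ X ++ D ++ C ++ pw n X ++ qs.flatten ++ R)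

/-- residue bit: `X^j` (dead letters) crosses a word `C` of letters of depth `> k` -/
def WR (k j : ℕ) (θ : FIC) : Prop :=
  ∀ (P X C : List ℕ) (qs : List (List ℕ)) (R : List ℕ), (∀ l ∈ X, 2 ≤ P.count l) →
    qs.length = k → Ok (P ++ C) C qs →
      RR θ (P ++ pw j X ++ C ++ qs.flatten ++ R) (P ++ C ++ pw j X ++ qs.flatten ++ R)

/-- `X^j` (dead letters) can be deleted -/
def WT (j : ℕ) (θ : FIC) : Prop :=
  ∀ P X Q : List ℕ, (∀ l ∈ X, 2 ≤ P.count l) → RR θ (P ++ pw j X ++ Q) (P ++ Q)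

/-- the bits of the level `(m, j)`, `j ≤ m + 2` (`j = 0`: type F, `j = 1`: type B, `2 ≤ j ≤ m + 1`: type D with
parameter `e = j - 1`, `j = m + 2`: type A) -/
def Lv (n m : ℕ) : ℕ → FIC → Prop
  | 0, θ => WF m θ
  | 1, θ => WBn n m θ
  | e + 2, θ => if e + 1 ≤ m then WDn n m (e + 1) θ else WAn n m θ

/-- degenerate: `x ≈ x^(n+1)` -/
def Dg (n : ℕ) (θ : FIC) : Prop := RR θ [0] (List.replicate (n + 1) 0)

/-- degenerate: `1 ≈ x^n` -/
def Dz (n : ℕ) (θ : FIC) : Prop := RR θ [] (List.replicate n 0)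

/-- residues agree in total and at the walls of depth `≤ m` -/
def Rz (n m : ℕ) (u v : List ℕ) : Prop :=
  (∀ x, u.count x ≡ v.count x [MOD n]) ∧
    ∀ y x, Dp m v y → (pre u y).count x ≡ (pre v y).count x [MOD n]

/-! ### words split along a chain -/

/-- the part in front of the chain -/
def hd : List ℕ → List ℕ → List ℕ
  | [], u => u
  | c :: _, u => pre u c

/-- `T` is the part of a word behind the letter `c` of a chain, `cs` the rest of the chain; the letters
between two letters of the chain are in `L` (all other letters and the letters of the chain which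
have been read, without the last one); the letter `d` does not occur before the next `k` letters of
the chain have been read -/
def Tl (d : ℕ) : ℕ → List ℕ → ℕ → List ℕ → List ℕ → Prop
  | k, L, _, [], T => ∀ z ∈ T, z ∈ L ∧ (z = d → k = 0)
  | k, L, c, c' :: cs, T => c' ∉ c :: L ∧ ∃ B T', T = B ++ c' :: T' ∧
      (∀ z ∈ B, z ∈ L ∧ (z = d → k = 0)) ∧ Tl d (k - 1) (c :: L) c' cs T'

/-- `u = A c₀ B₀ c₁ B₁ ..`, `cs = [c₀, c₁, ..]`, letters of `A` in `L`, letters of `B_i` in
`L, c₀, .., c_(i-1)`, `d` not in `B_i` for `i < k` -/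
def Sp (d k : ℕ) (L : List ℕ) : List ℕ → List ℕ → Prop
  | [], u => ∀ z ∈ u, z ∈ L
  | c :: cs, u => c ∉ L ∧ ∃ A T, u = A ++ c :: T ∧ (∀ z ∈ A, z ∈ L) ∧ Tl d k L c cs T

/-- `q₀ N₀ q₁ N₁ ..`, where `N_i` is the product of the words `g(z)^(ξ (s + i) z)`, `z ∈ L` -/
def ins (L : List ℕ) (g : ℕ → List ℕ) (ξ : ℕ → ℕ → ℕ) : ℕ → List (List ℕ) → List ℕ
  | _, [] => []
  | s, q :: qs => q ++ L.flatMap (fun z => pw (ξ s z) (g z)) ++ ins L g ξ (s + 1) qs

/-- `q₀ F₀ q₁ F₁ ..` -/
def itl : List (List ℕ) → List (List ℕ) → List ℕ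
  | q :: qs, F :: Fs => q ++ F ++ itl qs Fs
  | _, _ => []

/-- the conditions on the images: over `P ++ A^g` the letters of `g z` (`z ∈ L`, `z ≠ d`) are dead after the first
segment, those of `g d` after the first `k + 1` segments, those of a segment after the next one -/
def Okd (g : ℕ → List ℕ) (d k : ℕ) (L P A : List ℕ) (qs : List (List ℕ)) : Prop :=
  Ok (P ++ A.flatMap g) ((L.filter (fun z => decide (z ≠ d))).flatMap g) qs ∧
    (k < qs.length → ∀ l ∈ g d,
      2 ≤ (P ++ A.flatMap g ++ (qs.take (k + 1)).flatten).count l)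

/-! ### insertion in front of a wall -/

/-- `x^N` inserted in front of the first occurrence of `y` -/
def ipt (w : List ℕ) (y x N : ℕ) : List ℕ :=
  pre w y ++ List.replicate N x ++ w.drop (pre w y).length

/-- `x` occurs twice in front of every wall of depth `≤ m` behind `y` (and in `w`) -/
def CX (m : ℕ) (w : List ℕ) (y x : ℕ) : Prop :=
  2 ≤ w.count x ∧ ∀ t, Dp m w t → y ∈ pre w t → 2 ≤ (pre w t).count x

/-- `u` and `v` differ in shape at the wall `y` of depth `≤ m + 1` and the letter `x` -/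
def Mm (m : ℕ) (u v : List ℕ) (x y : ℕ) : Prop :=
  Dp (m + 1) v y ∧ ¬ ∀ i ≤ 1, (i + 1 ≤ (pre u y).count x ↔ i + 1 ≤ (pre v y).count x)

end Pool.Agent.MWKP
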