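import Pool.Agent.MWKP.Defs
import Pool.Agent.MWKP.Tools

/-!
# MWKP: the lattice of fully invariant congruences above `K_n` is modular (rows)

Every row is self contained, its complete proof is in the docstring.  Tools: `RR.append`, `RR.sub`
(substitution, `flatMap`), `RR.filter`, `RR.symm`, `RR.refl`, `θ.trans` (file Helper2_MV/Keep),
all lemmas on `pre`, `Dp`, `Chc`, `Ag` in MWK/Defs.lean, and the proved rows of MWK which do not mention
a congruence: theorems `T.dag, T.inv, T.swa, T.cut, T.twc, T.seg, T.okm, T.cvt, T.che, T.ch2, T.trc, T.asg,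
T.sfa, T.sba, T.sda, T.saa, T.stb, T.lvm` in MWKP/Tools.lean (statements `MWK.DagStmt` ..); they need no
hypothesis.  The names in brackets are the twins for `n = 1` (files Helper*_MWK).
Notation in the proofs: `X^k = pw k X`, `~` is `RR θ`, dead = occurs at least twice before.
-/

namespace Pool.Agent.MWKP

open Pool.Agent.Helper14_MV Pool.Agent.Helper2_MV Pool.Agent.MWK

/-! ## The congruence `K_n` -/

/-- **KSW** (uses nothing) [SWK].  Adjacent letters which are both not first occurrences commute.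
PROOF.  If `a ∈ P`, `P = P₁ a P₂`, then `P a Q ~ P a^(n+1) Q`: `Kn.g` with `0 ↦ [a]`, `1 ↦ P₂`.  So
`P a b Q ~ P a^(n+1) b Q ~ P a^(n+1) b^(n+1) Q` (`b` occurs before), `~ P b^(n+1) a^(n+1) Q` (`Kn.c`), and back. -/
def KswStmt : Prop := ∀ (n : ℕ) (θ : FIC), Kn n θ → ∀ (P : List ℕ) (a b : ℕ) (Q : List ℕ), a ∈ P →
  b ∈ P → RR θ (P ++ a :: b :: Q) (P ++ b :: a :: Q)

/-- **KDD** (uses KSW) [FRE].  Dead words depend only on the numbers of letters modulo `n`.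
PROOF.  (1) If `x` is dead after `P`: `P x^n Q ~ P Q`.  `P = a x b x c`; `x b x ~ x b x^(n+1)` (`Kn.g`),
`x^(n+1) = x^(n-1) x x`, `x x c ~ x x c x^n` (`Kn.e`), so `x b x c ~ x b x^(n+1) c ~ x b x^(n+1) c x^n ~ x b x c x^n`.
(2) A permutation of `D` (all letters in `P`): KSW (induction on `List.Perm`).  (3) If all letters of `E`
are dead after `P` and `n ∣ E.count l` for all `l`, then `P E Q ~ P Q`: strong induction on the length:
`E = x :: E'`, `E.count x ≥ n`, `E` is a permutation of `x^n ++ E''`; (2), (1).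
(4) `P D Q ~ P D D^(n-1) D' Q` by (3) (`D^(n-1) D'` has counts `(n-1) D.count l + D'.count l ≡ 0`) and
`P D^n D' Q ~ P D' Q` by (3). -/
def KddStmt : Prop := ∀ (n : ℕ) (θ : FIC), Kn n θ → ∀ P D D' Q : List ℕ, (∀ l ∈ D, 2 ≤ P.count l) →
  (∀ l ∈ D', 2 ≤ P.count l) → (∀ l, D.count l ≡ D'.count l [MOD n]) →
    RR θ (P ++ D ++ Q) (P ++ D' ++ Q)

/-- **KPG** (uses KDD).  Powers of a word whose letters have occurred.
PROOF.  `X^i = X X^(i-1)`; the letters of `X` are dead after `P X`; KDD for `X^(i-1)`, `X^(j-1)`. -/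
def KpgStmt : Prop := ∀ (n : ℕ) (θ : FIC), Kn n θ → ∀ (P X Q : List ℕ) (i j : ℕ), (∀ l ∈ X, l ∈ P) →
  1 ≤ i → 1 ≤ j → i ≡ j [MOD n] → RR θ (P ++ pw i X ++ Q) (P ++ pw j X ++ Q)

/-- **KCL** (uses KDD) [CLO].  Closed factors depend only on their letters and the numbers modulo
`n`.
PROOF.  `x^a y^b ~ y^b x^a` for `a, b ≥ 2` (`Kn.c` with `0 ↦ x^a`, `1 ↦ y^b`, and `x^i ~ x^j` for `i, j ≥ 2`,
`i ≡ j [MOD n]`, from `Kn.g` with `1 ↦ []`).  Let `E(L)` be the product of `l^(2n)`, `l ∈ L` (`L` a list of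
letters).  For `l ∈ L` in every context `l E ~ E l`: `E = E₁ l^(2n) E₂`,
`l E ~ l l^(2n) E₁ E₂ ~ E₁ E₂ l^(2n+1) ~ E₁ l^(2n) E₂ l` (move powers with exponents `≥ 2`).  The order of `L` does
not matter.  `P Z Q ~ P Z E Q` (KDD, `L` = the letters of `Z` without repetition) `~ P E Z Q`; the same for
`Z'`, same `E`; `P E Z Q ~ P E Z' Q` by KDD (all letters are dead after `P E`). -/
def KclStmt : Prop := ∀ (n : ℕ) (θ : FIC), Kn n θ → ∀ P Z Z' Q : List ℕ, (∀ l, l ∈ Z ↔ l ∈ Z') →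
  (∀ l ∈ Z, 2 ≤ (P ++ Z).count l) → (∀ l ∈ Z', 2 ≤ (P ++ Z').count l) →
    (∀ l, Z.count l ≡ Z'.count l [MOD n]) → RR θ (P ++ Z ++ Q) (P ++ Z' ++ Q)

/-- **KIT** (uses KDD).  Dead words inserted between segments.
PROOF.  Induction on `qs` for all `P, Fs, Fs'`: the first gap by KDD (the letters of `F₀`, `F₀'` are dead
after `P q₀`), then the induction hypothesis for `P ++ q₀ ++ F₀'` (the counts only grow). -/
def KitStmt : Prop := ∀ (n : ℕ) (θ : FIC), Kn n θ → ∀ (qs Fs Fs' : List (List ℕ)) (P R : List ℕ),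
  Fs.length = qs.length → Fs'.length = qs.length →
  (∀ (i : ℕ) (F : List ℕ), Fs[i]? = some F → ∀ l ∈ F, 2 ≤ (P ++ (qs.take (i + 1)).flatten).count l) →
  (∀ (i : ℕ) (F : List ℕ), Fs'[i]? = some F → ∀ l ∈ F, 2 ≤ (P ++ (qs.take (i + 1)).flatten).count l) →
  (∀ (i : ℕ) (F F' : List ℕ), Fs[i]? = some F → Fs'[i]? = some F' → ∀ l, F.count l ≡ F'.count l [MOD n]) →
    RR θ (P ++ itl qs Fs ++ R) (P ++ itl qs Fs' ++ R)

/-! ## Splitting along a chain -/

/-- **SPF** (uses nothing; `T.cvt` shows the style).  A filtered word is split along its chain.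
PROOF.  Let `F z := z ∈ L ∨ z ∈ cs`.  For a letter `c` with `F c`: `pre (w.filter F) c = (pre w c).filter F`
(`mem_split`, `pre_split`); this gives the second claim.  First claim: `cs = []`: the letters of the
filtered word are in `L`.  `cs = c :: cs'`: `w = pre w c ++ c :: T₀`.  A letter `c' ∈ cs'` is not in `pre w c`
(`Chc.mem_pre` for `Chc w [c] cs'` gives `c ∈ pre w c'`; `pre_asymm`), `c ∉ pre w c`; so the letters of
`A = (pre w c).filter F` are in `L`.  For `Tl` prove by induction on `cs'`, for all `k, L, c` and all words: if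
`w = A₀ ++ c :: T₀`, `c ∉ A₀`, `Chc w [c] cs'`, no letter of `cs'` in `A₀ ++ [c]`, and (with
`e := (A₀ ++ [c]).count d`) `(pre w c'').count d = e` for the letter `c''` number `k - 1` of `cs'` (`k ≥ 1`) or
`w.count d = e` if there is no such letter (`k ≥ 1`), then `Tl d k L' c cs' (T₀.filter F)` for every `L'` which
contains all letters `z` of the filtered word which are not `c` and not in `cs'`.  `cs' = []`: `w.count c = 1`,
so `c ∉ T₀`.  `cs' = c' :: cs''`: `T₀ = B₀ ++ c' :: T'`, `pre w c' = A₀ ++ c :: B₀`, `c ∉ B₀` as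
`(pre w c').count c = 1`, no letter of `cs''` in `B₀`; if `k ≥ 1` then `d ∉ B₀` (`count_pre_mono`).  In the next step
the list is `c :: L'`, `k - 1`.  (If `k = 0` nothing is claimed on `d`.) -/
def SpfStmt : Prop := ∀ (d k : ℕ) (L cs p w : List ℕ), (∀ z ∈ L, z ∉ cs) → Chc w p cs →
  (∀ c c0, 1 ≤ k → cs[k]? = some c → cs[0]? = some c0 →
    (pre w c).count d = (pre w c0).count d) →
  (∀ c0, 1 ≤ k → cs[k]? = none → cs[0]? = some c0 → w.count d = (pre w c0).count d) →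
    Sp d k L cs (w.filter (fun z => decide (z ∈ L ∨ z ∈ cs))) ∧
      hd cs (w.filter (fun z => decide (z ∈ L ∨ z ∈ cs))) =
        (hd cs w).filter (fun z => decide (z ∈ L ∨ z ∈ cs))

/-- **PUR** (medium-strong, uses KDD, KIT).  THE KEY LEMMA.
PROOF.  Induction on `cs` for all `k, L, u, v`.  `cs = []`: `hd [] u = u`, `qs = []`: `RR.sub`, `RR.append` (`ξ = 0`).
`cs = c :: cs'`: `u = A c T`, `v = A' c T'` (`A = pre u c` because `c ∉ L`), `T = B ..`, `T' = B' ..` where `B`, `B'` is the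
part in front of the next letter of the chain (or all of `T`).  `Sp d (k-1) (c :: L) cs' u`, and
`hd cs' u = A c B`; the same for `v`.  Induction hypothesis: `ξ'`.  Define
`ξ 0 z = (n-1) * B.count z + B'.count z`, `ξ (i+1) z = ξ' i z + (n-1) * ξ' i c * B.count z`.  (`ξ i d = 0` for `i < k`:
`d ∉ B, B'` if `k ≥ 1`.)  Let `g, P, qs = q :: qs', R` be given.
(I) Induction hypothesis with `g₁ := g` except `g₁ c = q ++ (B^g)^(n-1)`, for `P`, `qs'`, `R` (`B^g = B.flatMap g`).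
`(hd cs' u)^g₁ = A^g q (B^g)^(n-1) B^g`.  `Okd` holds: the letters of `g z`, `z ∈ L`, `z ≠ d`, and of `B^g`, are dead
after `P A^g q` (if `d ∈ B` then `k = 0`), the letters of `q` after the next segment by `Ok`; counts grow
(`T.okm`).  It gives `P A^g q (B^g)^n qs' R ~ P A'^g q (B^g)^(n-1) B'^g (ins (c :: L) g₁ ξ' 0 qs') R`.  The left side is
`~ P A^g q qs' R` (KDD).
(II) Induction hypothesis with `g₂ c = q`, `g₂ z = []` otherwise, for any `P''` and any segments `qs''`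
with `Ok (P'' ++ q) q qs''`: `P'' q qs'' R ~ P'' q (q''₁ q^(ξ' 0 c) q''₂ q^(ξ' 1 c) ..) R`.  Take `P'' = P A'^g`,
`q''₁ = N₀ q₁ N₁`, `q''_i = q_i N_i`, `N₀ = L.flatMap (z ↦ g(z)^(ξ 0 z))`, `N_(i+1)` with `ξ (i+1)`.
The left side is the right side of the claim (`q N₀ q₁ N₁ ..` is `ins L g ξ 0 (q :: qs')`).  The right side of
(II) and the right side of (I) are equivalent: after `P A'^g q` both are the segments `q₁, q₂, ..` with
dead words inserted which have the same counts: `B, B'` are words in the letters of `L` (`L.Nodup`), so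
`(n-1) B^g + B'^g` is `N₀`; gap `i + 1`: `g₁(c)^(ξ' i c)` and `g(z)^(ξ' i z)` against `N_(i+1)` and `q^(ξ' i c)`.  (KDD for
the first gap, KIT for the others.) -/
def PurStmt : Prop := ∀ (n : ℕ) (θ : FIC), Kn n θ → ∀ (d : ℕ) (cs : List ℕ) (k : ℕ) (L u v : List ℕ),
  d ∈ L → L.Nodup → Sp d k L cs u → Sp d k L cs v → RR θ u v →
    ∃ ξ : ℕ → ℕ → ℕ, (∀ i < k, ξ i d = 0) ∧
      ∀ (g : ℕ → List ℕ) (P : List ℕ) (qs : List (List ℕ)) (R : List ℕ), qs.length = cs.length →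
        Okd g d k L P (hd cs u) qs → Okd g d k L P (hd cs v) qs →
          RR θ (P ++ (hd cs u).flatMap g ++ qs.flatten ++ R)
            (P ++ (hd cs v).flatMap g ++ ins L g ξ 0 qs ++ R)

/-! ## Residues -/

/-- **WRA** (easy-medium, uses KDD).  The residues of `WR`, `WT` form a subgroup.
PROOF.  `WR` sum: `P X^(i+j) C ~ P X^i C X^j ~ P C X^j X^i` (first the bit with the prefix `P X^i`, then the bit
with `C X^j` instead of `C`: the letters of `X` are dead, `T.okm`).  `i ≡ j`: KDD on both sides.  Multiples: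
induction (`WR k 0` is trivial).  `WT`: the same. -/
def WraStmt : Prop := ∀ (n : ℕ) (θ : FIC), Kn n θ →
  (∀ k i j, WR k i θ → WR k j θ → WR k (i + j) θ) ∧
  (∀ k i j, i ≡ j [MOD n] → WR k i θ → WR k j θ) ∧
  (∀ k i j, WR k j θ → WR k (i * j) θ) ∧
  (∀ i j, WT i θ → WT j θ → WT (i + j) θ) ∧
  (∀ i j, i ≡ j [MOD n] → WT i θ → WT j θ) ∧
  (∀ i j, WT j θ → WT (i * j) θ)

/-- **TOT** (easy, uses KDD).  PROOF.  Filter `x`, rename, substitute: `X^a ~ X^b`, `a = u.count x`,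
`b = v.count x`.  `P X^(a + (n-1) b) Q ~ P X^(b + (n-1) b) Q ~ P Q` (KDD). -/
def TotStmt : Prop := ∀ (n : ℕ) (θ : FIC), Kn n θ → ∀ (u v : List ℕ) (x : ℕ), RR θ u v →
  WT (df n (u.count x) (v.count x)) θ

/-- **RBT** (medium, uses KDD, KIT, SPF, PUR).  Residues at a wall.
PROOF.  `x = y` or `x ∈ cs`: both counts are `0` (`c ∈ cs`: `y ∈ pre u c`, `pre_asymm`), `WR _ 0` is trivial.
Otherwise `L = [x, y]`, `d = y`, `k = 0`; `u', v'` = the words filtered to `L ++ cs` (`RR.filter`), SPF, PUR.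
`hd cs u' = x^a y x^b`, `a = (pre u y).count x` (`y` occurs once in `hd cs u`), `hd cs v' = x^a' y x^b'`.  Let
`P, X, C, qs, R` be as in `WR` (`X` dead after `P`).  `g x = X`, `g y = C`, `[]` otherwise:
(A) `P X^a C X^b qs R ~ P X^a' C X^b' (ins ..) R`, the inserted words are `N_i = X^(ξ i x) C^(ξ i y)`.
(Y) the same with `g x = []`: `P' C qs'' R ~ P' C q''₀ C^(ξ 0 y) q''₁ ..`, for `P' = P X^a'`,
`q''₀ = X^b' q₀ X^(ξ 0 x)`, `q''_i = q_i X^(ξ i x)`: the words `C^(ξ i y)` in (A) may be removed (KIT for the order).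
(X) with `g y = []`: `P' X^(a+b) qs R ~ P' X^(a'+b') q₀ X^(ξ 0 x) q₁ ..`, for `P' = P X^a' C X^((n-1) a')`; the right side
is `~ P X^a' C X^b' q₀ X^(ξ 0 x) ..` (KDD).  So
(B) `P X^a C X^b qs R ~ P X^a' C X^((n-1) a' + a + b) qs R` (for `cs = []` directly from (A) and (X)).
In (B) take `C X^((n-1) b)` instead of `C`: `P X^a C qs R ~ P X^a' C X^((n-1) a' + a) qs R` (KDD), then
`P X^((n-1) a')` instead of `P`: the claim.  All `Ok` conditions by `T.okm` (`X` is dead). -/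
def RbtStmt : Prop := ∀ (n : ℕ) (θ : FIC), Kn n θ → ∀ (u v : List ℕ) (x y : ℕ) (cs : List ℕ),
  RR θ u v → y ∈ u → y ∈ v → Chc u [y] cs → Chc v [y] cs →
    WR cs.length (df n ((pre u y).count x) ((pre v y).count x)) θ

/-! ## From a disagreement to the word bits -/

/-- **FBT** (medium, uses KDD, KIT, SPF, PUR) [SFB].
PROOF.  `cs = []`: the words filtered to `x, y` are `[x, y]`, `[y, x]`; `RR.sub`.  Otherwise `L = [x, y]`, `d = y`,
`k = 0`; `hd cs u' = [x, y]`, `hd cs v' = [y, x]`.  Let `P, X, Y, qs, R` be as in `WF`; `g x = X`, `g y = Y`: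
(A) `P X Y qs R ~ P Y X (q₀ X^(ξ 0 x) Y^(ξ 0 y) q₁ ..) R`.  (X) with `g y = []`: for `P' = P Y`, `q''_i = q_i Y^(ξ i y)`:
`P Y X q''₀ q''₁ .. ~ P Y X q''₀ X^(ξ 0 x) q''₁ ..`.  (Y) with `g x = []`: for `P' = P`, `q''₀ = X q₀`, `q''_i = q_i`:
`P Y X q₀ q₁ .. ~ P Y X q₀ Y^(ξ 0 y) q₁ ..`.  Together the claim (KIT for the order of the dead words). -/
def FbtStmt : Prop := ∀ (n : ℕ) (θ : FIC), Kn n θ → ∀ (m : ℕ) (u v : List ℕ) (x y : ℕ) (cs : List ℕ),
  RR θ u v → cs.length = m → x ∈ pre u y → y ∈ pre v x → y ∈ u → x ∈ v →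
    Chc u [x, y] cs → Chc v [x, y] cs → WF m θ

/-- **BBT** (medium, uses KDD, KIT, SPF, PUR) [SBB].
PROOF.  `x ≠ y`, `x ∉ cs` (`x ∈ pre v c`).  `L = [x, y]`, `d = y`, `k = 0`; `hd cs u' = x^a y x^b`, `a ≥ 1`;
`hd cs v' = y x^b'`, `b' ≥ 1` (`cs = []`: `x ∈ v`; otherwise `x ∈ pre v c` for the first letter).  `g x = X^(2n)`, `g y = C`:
`P X^(2na) C X^(2nb) qs R ~ P C X^(2nb') q₀ X^(2n ξ 0 x) C^(ξ 0 y) q₁ ..`; by KDD, KIT the superfluous powers of
`X^(2n)` may be deleted: `P X^(2n) C qs R ~ P C X^(2n) q₀ C^(ξ 0 y) q₁ ..`.  (Y) with `g x = []`: for `P' = P`,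
`q''₀ = X^(2n) q₀`, `q''_i = q_i`: `P C q''₀ q₁ .. ~ P C q''₀ C^(ξ 0 y) q₁ ..`. -/
def BbtStmt : Prop := ∀ (n : ℕ) (θ : FIC), Kn n θ → ∀ (m : ℕ) (u v : List ℕ) (x y : ℕ) (cs : List ℕ),
  RR θ u v → cs.length = m → x ∈ pre u y → x ∉ pre v y → x ∈ v → y ∈ u → y ∈ v →
    Chc u [y] cs → Chc v [y] cs → (∀ c ∈ cs, x ∈ pre v c) → WBn n m θ

/-- **ABT** (medium-strong, uses KDD, KPG, KIT, SPF, PUR) [SAB].
PROOF.  `L = [x, y]`, `d = y`, `k = 0`; `hd cs u' = x^a y x^b`, `a ≥ 2`; `hd cs v' = x y x^b'`, `b' ≥ 1`.  Let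
`P, X, C, qs, R` be as in `WAn`; `g x = X`, `g y = C` (a letter of `C` or of a segment which is in `X` is dead
anyway):  (A) `P X^a C X^b qs R ~ P X C X^b' q₀ X^(ξ 0 x) C^(ξ 0 y) q₁ ..`.  (Y) with `g x = []`, `P' = P X`,
`q''₀ = X^b' q₀ X^(ξ 0 x)`, `q''_i = q_i X^(ξ i x)`: remove the words `C^(ξ i y)`.  (X) with `g y = []`, `P' = P X C X^(n-1)`:
`P' X^(a+b) qs R ~ P' X^(1+b') q₀ X^(ξ 0 x) ..`, the right side is `~ P X C X^b' q₀ X^(ξ 0 x) ..` (KPG).  So
`P X^a C X^b qs R ~ P X C X^(n-1+a+b) qs R`; with `C X^((n-1) b)` instead of `C` and `s = a - 1 ≥ 1`: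
`P X^(1+s) C qs R ~ P X C X^s qs R` for all `P, X, C, qs, R` (KPG).  Induction on `t`:
`P X^(1+(t+1)s) C ~ P X^(ts) X C X^s ~ P X C X^s X^(ts)` (first step with the prefix `P X^(ts)`, second step with
`C X^s` instead of `C`).  `t = n`: `P X^(1+ns) C ~ P X C X^(ns)`, and `X^(1+ns) ~ X X^n`, `X^(ns) ~ X^n` (KPG). -/
def AbtStmt : Prop := ∀ (n : ℕ) (θ : FIC), Kn n θ → ∀ (m : ℕ) (u v : List ℕ) (x y : ℕ) (cs : List ℕ),
  RR θ u v → cs.length = m → 2 ≤ (pre u y).count x → (pre v y).count x = 1 → y ∈ u → y ∈ v →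
    Chc u [y] cs → Chc v [y] cs → (∀ c ∈ cs, 2 ≤ (pre v c).count x) → 2 ≤ v.count x → WAn n m θ

/-- **DBT** (medium-strong, uses KDD, KPG, KIT, SPF, PUR) [SDB].
PROOF.  Positions as in SDB: `L = [x, d, y]`, PUR with `d` and `k = m + 1 - e` (`k ≥ 1`).  `d` occurs once in
`hd cs u` (`(pre u c).count d = 1` for the letter `c` number `k` of `cs`, or `u.count d = 1`, and `d ∈ pre u y`), the
same for `v`.  `hd cs u' = x d x^s y x^b` with `s = (pre u y).count x - 1 ≥ 1`, `hd cs v' = x d y x^b'`, `b' ≥ 1`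
(`2 ≤ (pre v c).count x`, or `2 ≤ v.count x`).  Let `P, X, D, C, qs, R` be as in `WDn`, `g x = X`, `g d = D`, `g y = C`:
(A) `P X D X^s C X^b qs R ~ P X D C X^b' q₀ X^(ξ 0 x) D^(ξ 0 d) C^(ξ 0 y) q₁ ..` (`ξ i d = 0` for `i < k`, and for `i ≥ k` the
letters of `D` are dead there).  (Y) with `g x = g d = []`, `P' = P X D`,
`q''₀ = X^b' q₀ X^(ξ 0 x) D^(ξ 0 d)`, `q''_i = q_i X^(ξ i x) D^(ξ i d)`: remove `C^(ξ i y)`.  (D) with `g x = g y = []`,
`P' = P X`, `q''₀ = C X^b' q₀ X^(ξ 0 x)`, `q''_i = q_i X^(ξ i x)`: `P' D q''₀ .. ~ P' D q''₀ D^(ξ 0 d) ..`: remove `D^(ξ i d)`.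
(X) with `g d = g y = []`, `P' = P X D C X^(n-1)`: `P' X^(1+s+b) qs R ~ P' X^(1+b') q₀ X^(ξ 0 x) ..`, the right side is
`~ P X D C X^b' q₀ X^(ξ 0 x) ..` (KPG).  So `P X D X^s C X^b qs R ~ P X D C X^(n+s+b) qs R`, with `C X^((n-1) b)` instead of
`C`: `P X D X^s C qs R ~ P X D C X^s qs R`.  Induction on `t`: `P X D X^(ts) C qs R ~ P X D C X^(ts) qs R` (use `D X^(ts)`
instead of `D`, then `C X^s` instead of `C`).  `t = n` and KPG. -/
def DbtStmt : Prop := ∀ (n : ℕ) (θ : FIC), Kn n θ →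
  ∀ (m e : ℕ) (u v : List ℕ) (x d y : ℕ) (cs : List ℕ),
  e ≤ m → RR θ u v → cs.length = m → (pre u d).count x = 1 → (pre v d).count x = 1 →
    d ∈ pre u y → d ∈ pre v y → 2 ≤ (pre u y).count x → (pre v y).count x = 1 → y ∈ u → y ∈ v →
    Chc u [y] cs → Chc v [y] cs → (∀ c ∈ cs, 2 ≤ (pre v c).count x) → 2 ≤ v.count x →
      (∀ c, cs[m + 1 - e]? = some c → (pre u c).count d = 1 ∧ (pre v c).count d = 1) →
      (cs[m + 1 - e]? = none → u.count d = 1 ∧ v.count d = 1) → WDn n m e θ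

/-- **DGN** (easy-medium, uses KDD) [DG1 DG2].
PROOF.  Filter and rename: `0^a ~ 0^b`, `a = u.count x`, `b = v.count x`; by symmetry `a < b`.  (1) `a ≤ 1 < b`... if
`a = 1`: `0 ~ 0^(1+t(b-1))` for all `t` (induction), `t = n`: `0 ~ 0^(1+n(b-1)) ~ 0^(n+1)` (exponents `≥ 2` may be changed
by `n`: `Kn.g` with `1 ↦ []`).  If `a = 0`: `[] ~ 0^b`, `0 ~ 0^(b+1)`: `Dg` as before; `[] ~ 0^(nb)`; if `nb ≥ 2`:
`[] ~ 0^(nb) ~ 0^(nb+n) ~ 0^n`; if `nb = 1` this is `Dz`.  For the first claim `a ≤ 1`, `b ≥ 2` or `a = 0`, `b ≥ 1`. -/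
def DgnStmt : Prop := ∀ (n : ℕ) (θ : FIC), Kn n θ → ∀ u v : List ℕ, RR θ u v →
  (¬ AgL 0 0 u v → Dg n θ) ∧ (∀ x, x ∈ u → x ∉ v → Dz n θ)

/-! ## Levels -/

/-- **LVN** (medium, uses KDD, KPG, KCL).  Implications between the bits.
PROOF.  `WF → WBn`: `WF` for `X^(2n)`, `C` (the letters of `X^(2n)` are dead, `T.okm`).  `WBn → WAn`, `WBn → WDn`:
`P X D X^n C ~ P X D X^(2n) C ~ P X D C X^(2n) ~ P X D C X^n` (KPG, `WBn` with the prefix `P X D`).  `WDn e → WDn (e+1)`,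
`e ≥ 1`: the condition on `D` is stronger.  `WDn → WAn`: `D = []`.  `WAn m → WF (m+1)`: let `qs = q :: f`;
`P X Y q f R ~ P X Y q (XY)^n f R` (KDD) `~ P X Y (XY)^n q f R` (`WAn` for the word `X Y`, `C = q`)
`~ P (YX)^(n+1) q f R` (KCL) `~ P Y X q f R` in the same way.  `WF → WR`: `WF` for `X^j`, `C`.
`Dg → WF 0`: `a ~ a^(n+1)` for every letter, so `a b ~ b a` in every context (`Kn.c`), and words commute. -/
def LvnStmt : Prop := ∀ (n : ℕ) (θ : FIC), Kn n θ → ∀ m,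
  (∀ j ≤ m + 1, Lv n m j θ → Lv n m (j + 1) θ) ∧ (Lv n m (m + 2) θ → Lv n (m + 1) 0 θ) ∧
    (WF m θ → ∀ j, WR m j θ) ∧ (Dg n θ → WF 0 θ)

/-- **LVC** (easy, uses LVN).  PROOF.  Induction with LVN. -/
def LvcStmt : Prop := ∀ (n : ℕ) (θ : FIC), Kn n θ → ∀ m j m' j' : ℕ, j ≤ m + 2 → j' ≤ m' + 2 →
  (m < m' ∨ (m = m' ∧ j ≤ j')) → Lv n m j θ → Lv n m' j' θ

/-- **LVX** (easy-medium, uses FBT, BBT, DBT, ABT) [LVS].
PROOF.  `j = 0`: `T.sfa`, FBT.  `j = 1`: `T.sba`, BBT (for `u', v'`, with `RR.symm` if they are exchanged).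
`j = e + 1`, `1 ≤ e ≤ m`: `T.sda`, DBT.  The last clause: `T.saa`, ABT. -/
def LvxStmt : Prop := ∀ (n : ℕ) (θ : FIC), Kn n θ → ∀ (m : ℕ) (u v : List ℕ), RR θ u v →
  (∀ j ≤ m + 1, AgL m j u v → ¬ AgL m (j + 1) u v → Lv n m j θ) ∧
  (AgL m (m + 2) u v → ¬ AgL (m + 1) 0 u v → Lv n m (m + 2) θ)

/-- **LVT** (medium, uses LVX, LVC, LVN, DGN).  A violation of the next level gives the bits.
PROOF.  If `¬ AgL 0 0 u v` then `Dg` (DGN), `WF 0 θ = Lv n 0 0 θ` (LVN), and LVC.  Otherwise, if some `AgL (M+1) 0 u v`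
fails take the least such `M`, and the largest `J ≤ M + 2` with `AgL M J u v` (`AgL M 0` holds): LVX gives
`Lv n M J θ`.  If `¬ AgL m (j+1) u v`, `j ≤ m + 1`, then `¬ AgL (m+1) 0 u v` (`T.lvm`), so `M ≤ m`, and if `M = m` then
`J ≤ j` (`T.lvm`); LVC.  In the same way for `¬ AgL (m+1) 0 u v`: `M ≤ m`, `J ≤ m + 2` if `M = m`. -/
def LvtStmt : Prop := ∀ (n : ℕ) (θ : FIC), Kn n θ → ∀ (u v : List ℕ), RR θ u v →
  (¬ AgL 0 0 u v → Dg n θ) ∧ ∀ m, (∀ j ≤ m + 1, ¬ AgL m (j + 1) u v → Lv n m j θ) ∧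
    (¬ AgL (m + 1) 0 u v → Lv n m (m + 2) θ)

/-! ## From word bits to words -/

/-- **TGN** (easy, uses nothing) [TGF].  PROOF.  `a = b`: clear.  `T.seg` with `A = P ++ [a, b]`, `S = [a, b]`
(if `a ∈ P` then `2 ≤ A.count a`), then `WF` with `X = [a]`, `Y = [b]`. -/
def TgnStmt : Prop := ∀ (θ : FIC) (m : ℕ), WF m θ → ∀ (P : List ℕ) (a b : ℕ) (Q : List ℕ),
  (a ∈ P ∨ ¬ Dp m (P ++ a :: b :: Q) a) → (b ∈ P ∨ ¬ Dp m (P ++ a :: b :: Q) b) →
    RR θ (P ++ a :: b :: Q) (P ++ b :: a :: Q)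

/-- **INB** (medium, uses KDD) [TGB].  Insertion of `x^(2n)` in front of `y`, type B.
PROOF.  `w = P ++ y :: Q`, `P = pre w y`.  `T.cut` with `D = Dp m w`, `A = P ++ [y]`: `Q = q ++ R₀`; `x` is dead after
`P y q` (`R₀ = []`, or `R₀ = t :: ..` with `pre w t = P y q`, `CX`).  `T.seg` (level `m`) with `A = P ++ y :: q`, rest `R₀`,
`S = y :: q` (a letter of `q` which is in `P ++ [y]` occurs twice in `A`, the others satisfy `¬ Dp m w z`):
`R₀ = qs.flatten ++ R`.  `P y q R₀ ~ P y q x^(2n) R₀` (KDD) `~ P x^(2n) y q R₀` (`WBn` with `X = [x]`, `C = y :: q`). -/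
def InbStmt : Prop := ∀ (n : ℕ) (θ : FIC), Kn n θ → ∀ (m : ℕ) (w : List ℕ) (x y : ℕ), WBn n m θ →
  y ∈ w → ¬ Dp m w y → CX m w y x → RR θ w (ipt w y x (2 * n))

/-- **IND** (medium-strong, uses KDD) [TGD].  Insertion of `x^n`, type D.
PROOF.  `w = P ++ y :: Q`, `P = pre w y`.  If `x` is dead after `P`: KDD.  Otherwise `P = P₁ ++ x :: P₂`,
`x ∉ P₁, P₂`.  As in INB: `Q = q ++ R₀`, `x` is dead after `P y q`, `T.seg` with `A = P ++ y :: q`, `S = y :: q`.
`P y q R₀ ~ P y q x^n R₀` (KDD) `~ P₁ x P₂ x^n y q R₀` (`WDn` with `X = [x]`, `D = P₂`, `C = y :: q`).  Condition on `D`: let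
`m + 1 - e < m`, `l ∈ P₂`.  If `l ∈ P₁ ++ [x]` the count is 2.  Otherwise `P₂ = P₃ ++ l :: P₄`, `l ∉ P₃`,
`pre w l = P₁ ++ x :: P₃` contains `x` once, so `¬ Dp (e - 1) w l` (`Dp.step`, `e ≥ 1`), and the last clause of
`T.seg` with `j = m + 1 - e` (`m - j = e - 1`, `j + 1 = m + 2 - e`). -/
def IndStmt : Prop := ∀ (n : ℕ) (θ : FIC), Kn n θ → ∀ (m e : ℕ) (w : List ℕ) (x y : ℕ), 1 ≤ e →
  e ≤ m → WDn n m e θ → y ∈ w → x ∈ pre w y → ¬ Dp m w y → ¬ Dp e w x → CX m w y x →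
    RR θ w (ipt w y x n)

/-- **INA** (medium-strong, uses KDD) [TGA].  Insertion of `x^n`, type A.
PROOF.  As IND; `P = P₁ ++ x :: P₂`.  A letter `z ∈ P₂` which is not in `P₁ ++ [x]` satisfies `¬ Dp m w z` (as
`(pre w z).count x = 1` and `¬ Dp (m+1) w x`).  `T.seg` with `A = P₁ x P₂ y q`, rest `R₀`, `S = P₂ ++ y :: q`; `WAn` with
`X = [x]`, `C = P₂ ++ y :: q`: `P₁ x x^n (P₂ y q) R₀ ~ P₁ x (P₂ y q) x^n R₀`.  `T.seg` with `A = P₁ x P₂`, rest
`y :: q ++ R₀`, `S = P₂`; `WAn` with `C = P₂`: `P₁ x x^n P₂ (y q R₀) ~ P₁ x P₂ x^n (y q R₀)`.  And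
`P₁ x (P₂ y q) x^n R₀ ~ w` (KDD). -/
def InaStmt : Prop := ∀ (n : ℕ) (θ : FIC), Kn n θ → ∀ (m : ℕ) (w : List ℕ) (x y : ℕ), WAn n m θ →
  y ∈ w → x ∈ pre w y → ¬ Dp m w y → ¬ Dp (m + 1) w x → CX m w y x → RR θ w (ipt w y x n)

/-- **RMN** (easy-medium, uses KDD).  The residue move at a wall.
PROOF.  `T.seg` (level `k`) with `A = P ++ [y]`, `S = [y]`: `Q = qs.flatten ++ R`.  `WR` with `C = y :: x^((n-1)j)`:
`P x^j (y x^((n-1)j)) qs R ~ P (y x^((n-1)j)) x^j qs R ~ P y qs R` (KDD). -/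
def RmnStmt : Prop := ∀ (n : ℕ) (θ : FIC), Kn n θ → ∀ (k j : ℕ) (P Q : List ℕ) (x y : ℕ), WR k j θ →
  y ∉ P → ¬ Dp k (P ++ y :: Q) y → 2 ≤ P.count x →
    RR θ (P ++ y :: Q) (P ++ List.replicate j x ++ y :: (List.replicate ((n - 1) * j) x ++ Q))

/-! ## Removing the differences of shape -/

/-- **IPT** (easy-medium, uses nothing).  The effect of an insertion.
PROOF.  `w = P ++ y :: Q`, `P = pre w y`, `ipt w y x N = P ++ x^N ++ y :: Q`.  `t ∈ P`: both `pre`s are `pre P t`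
(`pre_append_mem`), and `y ∉ pre w t`, `t ≠ y`.  `t = y`: `P` and `P ++ x^N`.  Otherwise `t ∉ P`, `t ≠ y`, `t ≠ x` (or `x ∈ P`
and then `t ≠ x`): `pre = P ++ y :: pre Q t` and `P ++ x^N ++ y :: pre Q t`. -/
def IptStmt : Prop := ∀ (w : List ℕ) (y x N : ℕ), y ∈ w →
  (∀ z, (ipt w y x N).count z = w.count z + if z = x then N else 0) ∧
  ∀ t, (t ≠ x ∨ x ∈ pre w y) → ∀ z, (pre (ipt w y x N) t).count z =
    (pre w t).count z + if z = x ∧ (t = y ∨ y ∈ pre w t) then N else 0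

/-- **ST1** (medium, uses INB, IND, INA).  One step: the insertion is allowed in both words.
PROOF.  `v`-depths up to `m + 1` are the `u`-depths (`T.dag`, from `AgL m j`, `Ag.weaken` to `FF m`).  `¬ Dp m v y`
(otherwise the pair is visible).  Let `α = (pre u y).count x`, `β = (pre v y).count x`.  The order of the walls
of depth `≤ m + 1` is the same in both words (clause `i = 0`).  `j = 1`: `¬ Dp (m+1) v x` if the difference is
at `i = 0`.  `CX`: let `Dp m _ t`, `y` before `t` (in both words, `Ag.mem_pre`).  If one of `α, β` is `≥ 2`, then the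
number of `x` before `t` is `≥ 2` in this word, hence in both (`Dp m`).  Otherwise `{α, β} = {0, 1}`,
`¬ Dp (m+1) v x`: the number of `x` before `t` is `≥ 1`, not `1` (`Dp.step`), so `≥ 2`.  The same for the total number
(`Dp.simple`).  INB with `N = 2n`.  `j = e + 1`, `1 ≤ e ≤ m`: the difference is at `i = 1` (`i = 0` is visible), so
`x` is before `y` in both words, one number is `1`, the other `≥ 2`; `¬ Dp e v x`; `CX` as before; IND.  `j = m + 2`:
`¬ Dp (m+1) v x`; INA. -/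
def St1Stmt : Prop := ∀ (n : ℕ) (θ : FIC), Kn n θ → ∀ (m j : ℕ), 1 ≤ j → j ≤ m + 2 → Lv n m j θ →
  ∀ (u v : List ℕ) (x y : ℕ), AgL m j u v → Mm m u v x y →
    CX m u y x ∧ CX m v y x ∧ (x ∈ pre u y ∧ x ∈ pre v y ∨ ¬ Dp (m + 1) v x) ∧ ∃ N, n ∣ N ∧
      2 ≤ (pre u y).count x + N ∧ 2 ≤ (pre v y).count x + N ∧
        RR θ u (ipt u y x N) ∧ RR θ v (ipt v y x N)

/-- **ST2** (medium, uses IPT).  One step: what is kept (combinatorics only).
PROOF.  Let `u' = ipt u y x N`, `v' = ipt v y x N`.  `t` with `Dp m v t`: `t ≠ x` or `x` is before `y` in both words (a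
letter with `Dp m` has `Dp (m+1)`).  IPT: the numbers before `t` change only for `x` and if `y` is before `t`
(`t ≠ y`, `¬ Dp m v y` because the pair is invisible), and then they are `≥ 2` before and after (`CX`).  So
`Ag (FF m v) v' v`, `Ag (FF m v) u' u`; `T.dag`: the depths up to `m + 1` are the same in `u, v, u', v'`; the families
`FB m`, `FD m e` (`e ≤ m + 1`) are the same for `v` and `v'`.  A wall `t` with `Dp (m+1) v t`: `t ≠ x` or `x` is before `y`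
in both words; `y` is before `t` in `u` iff in `v` (clause `i = 0` of the family for walls of depth `m + 1`,
`t ≠ y`).  If `t = y` or `y` is before `t`: the numbers of `x` before `t` are `≥ 2` in `u'` and `v'`.  In all other cases
nothing changes.  So `AgL m j u' v'`, a difference `Mm` for `u', v'` is one for `u, v`, and `(x, y)` is none. -/
def St2Stmt : Prop := ∀ (m j : ℕ), 1 ≤ j → j ≤ m + 2 → ∀ (u v : List ℕ) (x y N : ℕ), AgL m j u v →
  Mm m u v x y → CX m u y x → CX m v y x → (x ∈ pre u y ∧ x ∈ pre v y ∨ ¬ Dp (m + 1) v x) →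
    2 ≤ (pre u y).count x + N → 2 ≤ (pre v y).count x + N →
      AgL m j (ipt u y x N) (ipt v y x N) ∧
      (∀ k ≤ m + 1, ∀ t, Dp k (ipt v y x N) t ↔ Dp k v t) ∧
      (∀ x' y', Mm m (ipt u y x N) (ipt v y x N) x' y' → Mm m u v x' y') ∧
      ¬ Mm m (ipt u y x N) (ipt v y x N) x y

/-- **MSM** (medium, uses IPT, ST1, ST2).
PROOF.  Induction on the number of the pairs `(x, y)` with `x ∈ u.toFinset ∪ v.toFinset`, `y ∈ v.toFinset`,
`Mm m u v x y` (a pair with `Mm` has `x` in one of the words, `Dp.mem`; the sets of letters do not change, `x ∈ u`,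
`x ∈ v` by `CX`).  None: `Ag (FF (m+1) v) u v`.  Otherwise ST1, ST2 and the induction hypothesis; the numbers
before the walls `t` with `Dp (m+1) v t` change by multiples of `n` (IPT: `t ≠ x` or `x` before `y`). -/
def MsmStmt : Prop := ∀ (n : ℕ) (θ : FIC), Kn n θ → ∀ (m j : ℕ), 1 ≤ j → j ≤ m + 2 → Lv n m j θ →
  ∀ u v : List ℕ, AgL m j u v → ∃ u' v', RR θ u u' ∧ RR θ v v' ∧ Ag (FF (m + 1) v') u' v' ∧
    (∀ x, u'.count x ≡ u.count x [MOD n] ∧ v'.count x ≡ v.count x [MOD n]) ∧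
    (∀ y x, Dp (m + 1) v y → (pre u' y).count x ≡ (pre u y).count x [MOD n] ∧
      (pre v' y).count x ≡ (pre v y).count x [MOD n]) ∧
    (∀ k ≤ m + 1, ∀ t, Dp k v' t ↔ Dp k v t)

/-! ## Residues and sorting -/

/-- **ADJ** (medium, uses KDD, WRA, RMN).  Adjusting the residues.
PROOF.  (1) Walls: induction on the number of the pairs `(x, y)` with `Dp M v y` and
`¬ (pre u y).count x ≡ (pre v y).count x [MOD n]` (`x` is a letter of `u` or `v`, `y` a letter of `v`).  Let `(x, y)` be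
such a pair, `a`, `b` the two numbers; both are `≥ 2` (otherwise they are equal, `Ag`).  Let `k` be least with
`Dp (k+1) v y` (`k < M`); `¬ Dp k v y`, `¬ Dp k u y` (`T.dag`).  `WR k (a + (n-1) b) θ`, so by WRA `WR k ((n-1) a + b) θ`
(multiply by `n - 1`).  RMN for `u = P ++ y :: Q` with `j = (n-1) a + b`: the number of `x` before `y` becomes
`a + j ≡ b`, before the walls behind `y` and in total it changes by `n j`; nothing else changes;
`Ag (FF M v)` is kept (all numbers of `x` before `y` and later walls are `≥ 2`, in `v` too).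
(2) Totals: if `u.count x ≢ v.count x`, both are `≥ 2`; append `x^j` (KDD-dead), `j = (n-1) a + b`, `WT j θ` by WRA;
`pre` of the walls does not change.  Induction on the number of such letters. -/
def AdjStmt : Prop := ∀ (n : ℕ) (θ : FIC), Kn n θ → ∀ (M : ℕ) (u v : List ℕ), Ag (FF M v) u v →
  (∀ x, WT (df n (u.count x) (v.count x)) θ) →
  (∀ k y x, k < M → Dp (k + 1) v y → WR k (df n ((pre u y).count x) ((pre v y).count x)) θ) →
    ∃ u', RR θ u u' ∧ Ag (FF M v) u' v ∧ Rz n M u' v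

/-- **DAT** (medium-strong, uses KDD) [SRT].  Sorting modulo `n`.
PROOF.  Claim, by induction on `v'` for all `R, u'`: if `v = R ++ v'`, `Ag (FF m v) (R ++ u') v`,
`Rz n m (R ++ u') v`, then `RR θ (R ++ u') v`.  `v' = []`: every letter of `u'` is dead after `R` (thresholds of `Ag`) and
`u'.count l ≡ 0`: KDD.  `v' = c :: v''`.  (i) `2 ≤ R.count c`: `R u' ~ R c c^(n-1) u'` (KDD); induction hypothesis for
`R ++ [c]`, `c^(n-1) u'` (all numbers change by `0` or `n`, only those of `c`, which are `≥ 2`).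
(ii) `R.count c ≤ 1`: `v.count c ≥ R.count c + 1`, so `c ∈ u'` (`Ag`), `u' = P₁ ++ c :: Q`, `c ∉ P₁`.
(iia) `c ∉ R` and `Dp m v c`: `pre v c = R`, `pre u c = R ++ P₁`.  Every `a ∈ P₁` is dead after `R` (if
`R.count a ≤ 1` the threshold `R.count a + 1` is reached in `u` and not in `v`), and `P₁.count a ≡ 0` (`Rz`): delete `P₁`
by KDD; then induction hypothesis for `R ++ [c]`, `Q`.
(iib) `c ∈ R` or `¬ Dp m v c`: move `c` to the front of `P₁`, one letter after the other (induction on `P₁` from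
the right): `W = R ++ P₂ ++ a :: c :: Q'`, `c ∉ P₂`, `a ≠ c`.  `a ∈ R ++ P₂` or `¬ Dp m v a`: otherwise
`pre W a = R ++ P₂` has `R.count c ≤ 1` letters `c`, and `pre v a` has at least `R.count c + 1` (`a ∉ R`): a
threshold.  So the exchange is allowed, and it does not change the numbers before walls `y` with `Dp m v y`
(`y ≠ a` or `a ∈ R ++ P₂`; the same for `c`), so `Ag`, `Rz` are kept.  Then the induction hypothesis for `R ++ [c]`.
The word `u` of the statement is the case `R = []`. -/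
def DatStmt : Prop := ∀ (n : ℕ) (θ : FIC), Kn n θ → ∀ (m : ℕ) (v : List ℕ),
  (∀ (P : List ℕ) (a b : ℕ) (Q : List ℕ), Ag (FF m v) (P ++ a :: b :: Q) v →
    (a ∈ P ∨ ¬ Dp m v a) → (b ∈ P ∨ ¬ Dp m v b) → RR θ (P ++ a :: b :: Q) (P ++ b :: a :: Q)) →
    ∀ u, Ag (FF m v) u v → Rz n m u v → RR θ u v

/-- **FIN** (medium, uses WRA, LVC, TGN, MSM, ADJ, DAT).
PROOF.  `j = 0`: `M = m`, `u' = u`, `v' = v`.  `j ≥ 1`: MSM, `M = m + 1`; the hypotheses on `WT`, `WR` hold for `u', v'`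
(WRA, `df` respects congruences; `Dp (k+1) v' y ↔ Dp (k+1) v y` for `k ≤ m`).  ADJ: `u''` with `Ag (FF M v') u'' v'`,
`Rz n M u'' v'`.  `WF M θ` (`Lv n m 0`, or LVC: `Lv n (m+1) 0`).  DAT; the exchanges by TGN: `Dp M W z ↔ Dp M v' z` for
`Ag (FF M v') W v'` (`T.dag`). -/
def FinStmt : Prop := ∀ (n : ℕ) (θ : FIC), Kn n θ → ∀ m j : ℕ, j ≤ m + 2 → Lv n m j θ →
  ∀ u v : List ℕ, AgL m j u v → (∀ x, WT (df n (u.count x) (v.count x)) θ) →
  (∀ k y x, (k < m ∨ (k = m ∧ 1 ≤ j)) → Dp (k + 1) v y →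
    WR k (df n ((pre u y).count x) ((pre v y).count x)) θ) → RR θ u v

/-- **FNL** (medium, uses KCL, ADJ, DAT) [LIM].
PROOF.  `T.stb`: `m` with `Dp (m+1) v x → Dp m v x`.  ADJ with `M = m`: `u'`.  DAT: let `W = P ++ a :: b :: Q`,
`Ag (FF m v) W v`; `Dp k W z ↔ Dp k v z` for `k ≤ m + 1` (`T.dag`), so `Dp (m+1) W z → Dp m W z`.  `T.cut` with
`D = Dp m W`, `A = P ++ [a, b]`: `Q = q ++ Q'`.  `Z = a :: b :: q`, `Z' = b :: a :: q`: every `z ∈ Z` has
`2 ≤ (P ++ Z).count z` (if `¬ Dp m W z` then `¬ Dp (m+1) W z`, `T.twc`; otherwise `z ∈ P`, or `z ∈ q`, `z ∈ A`).  KCL. -/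
def FnlStmt : Prop := ∀ (n : ℕ) (θ : FIC), Kn n θ → ∀ u v : List ℕ, (∀ m, Ag (FF m v) u v) →
  (∀ x, WT (df n (u.count x) (v.count x)) θ) →
  (∀ k y x, Dp (k + 1) v y → WR k (df n ((pre u y).count x) ((pre v y).count x)) θ) → RR θ u v

/-- **FDG** (medium, uses KDD, KCL, WRA).  The degenerate cases.
PROOF.  `Dg`: for every letter `a` in every context `a ~ a^(n+1)`, so `a b ~ a^(n+1) b^(n+1) ~ b a`: a word may be
permuted.  Let `x` be a letter of `u` (and of `v`).  `u ~ u x^(2n)` (`x ~ x^(2n+1)`: from `x ~ x^(n+1)`), and with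
`j = df n (v.count x) (u.count x)`, `WT j θ` by WRA (it is `(n-1) * df n (u.count x) (v.count x)` modulo `n`):
`u ~ u x^(2n) x^j`; the number of `x` is now `≡ v.count x`.  After this for all letters, and after `v ~ v x^(2n)`
for all letters, the words have the same letters, all of them at least twice, and the numbers are congruent:
KCL with `P = Q = []`.  `Dz`: first multiply `u` and `v` by `x^(2n) ~ 1` for all letters `x` of the other word.
(`Dz` gives `Dg`: multiply by `x`.) -/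
def FdgStmt : Prop := ∀ (n : ℕ) (θ : FIC), Kn n θ → ∀ u v : List ℕ,
  (∀ x, WT (df n (u.count x) (v.count x)) θ) →
    (Dg n θ → (∀ x, x ∈ u ↔ x ∈ v) → RR θ u v) ∧ (Dz n θ → RR θ u v)

/-! ## The modular law -/

/-- **AGT** (easy, uses nothing).  Agreement is an equivalence relation.
PROOF.  `T.inv` (the families are the same for agreeing words), `Ag.symm`, `Ag.trans`. -/
def AgtStmt : Prop := ∀ m j : ℕ, j ≤ m + 2 → (∀ u, AgL m j u u) ∧
  (∀ u v, AgL m j u v → AgL m j v u) ∧ ∀ u v w, AgL m j u v → AgL m j v w → AgL m j u w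

/-- **LVE** (easy-medium, uses AGT, LVT).  If `(u, v)` in the join violates the next level, then one of the two
congruences has the bits.
PROOF.  Induction on the chain: if all steps agree at the next level (`AgL m (j+1)`, or `AgL (m+1) 0`), then
`u, v` agree (AGT); otherwise LVT for the step.  `Dg`, `Dz`: `AgL 0 0`, and the content (a step `a, b` with
`x ∈ a`, `x ∉ b` or conversely: DGN). -/
def LveStmt : Prop := ∀ (n : ℕ) (ρ σ : FIC), Kn n ρ → Kn n σ → ∀ u v : List ℕ,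
  RR (FIC.sup ρ σ) u v →
    (¬ AgL 0 0 u v → Dg n ρ ∨ Dg n σ) ∧ (¬ (∀ x, x ∈ u ↔ x ∈ v) → Dz n ρ ∨ Dz n σ) ∧
    ∀ m, (∀ j ≤ m + 1, ¬ AgL m (j + 1) u v → Lv n m j ρ ∨ Lv n m j σ) ∧
      (¬ AgL (m + 1) 0 u v → Lv n m (m + 2) ρ ∨ Lv n m (m + 2) σ)

/-- **TEL** (medium, uses WRA, TOT, RBT, LVC, LVN, LVT, AGT).  Telescoping.
PROOF.  (1) Induction on the chain `u, .., w, w'`: `df n a c ≡ df n a b + df n b c [MOD n]`; TOT for the step, WRA.
(2) Let `Dp (k+1) v y`, `¬ Dp k v y`.  If `WF k ρ` or `WF k σ`: `WR k j` holds for all `j` (LVN), take `a = df ..`, `b = 0` or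
`a = 0`, `b = df ..`.  Otherwise every step `w, w'` satisfies `AgL k 0 w w'`: otherwise by LVT `Dg` and `WF 0`, or
(`k = k' + 1`) `Lv n k' (k' + 2)`, hence `WF k` (LVN, LVC).  So `AgL k 0 w v` for all words of the chain (AGT), and
`Dp (k+1) w y`, `¬ Dp k w y` (`T.dag`).  For a step `w, w'`: `T.che` gives `cs` of length `k` with `Chc w [y] cs`, its
letters satisfy `Dp k`, `T.trc`: `Chc w' [y] cs`.  RBT.  Sum as in (1). -/
def TelStmt : Prop := ∀ (n : ℕ) (ρ σ : FIC), Kn n ρ → Kn n σ → ∀ u v : List ℕ,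
  RR (FIC.sup ρ σ) u v →
    (∀ x, ∃ a b, df n (u.count x) (v.count x) ≡ a + b [MOD n] ∧ WT a ρ ∧ WT b σ) ∧
    ∀ k y x, Dp (k + 1) v y → ¬ Dp k v y →
      ∃ a b, df n ((pre u y).count x) ((pre v y).count x) ≡ a + b [MOD n] ∧ WR k a ρ ∧ WR k b σ

/-- **KMD** (medium, uses WRA, TOT, RBT, DGN, LVN, LVC, LVT, FIN, FNL, FDG, LVE, TEL).  **The lattice above `K_n` is
modular.**
PROOF.  Let `ρ ≤ τ`, `(u, v)` in `ρ ∨ σ` and in `τ`, `η = ρ ∨ (σ ∧ τ)` (`Kn` for all of them: they contain `β`).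
(1) If `WT a ρ`, `WT b σ`, `WT c τ`, `c ≡ a + b`, then `WT c η`: `b ≡ c + (n-1) a`, so `WT b τ` (WRA, `ρ ≤ τ`), `WT b (σ ∧ τ)`,
`WT b η`, `WT a η`.  The same for `WR`.  So `WT (df ..) η` (TEL, TOT for `τ`), and `WR k (df ..) η` for `Dp (k+1) v y` as soon as
`WR k (df ..) τ`: let `k₀ ≤ k` be the exact value (`Dp (k₀+1) v y`, `¬ Dp k₀ v y`); `WR k₀ j → WR k j` is NOT used: FIN
and FNL are applied with hypotheses for all `k`; if `k > k₀` then `WR k j η` follows from `WR k₀ j η`: `WR k₀ j → WR k j`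
because `Ok A C qs` of length `k` restricts to the first `k₀` segments (put the other ones into `R`).
(2) If a bit holds in `ρ` or in `σ`, and in `τ`, it holds in `η` (for `Lv`, `Dg`, `Dz`).
(3) Contents of `u, v` differ: `Dz η` by LVE and DGN for `τ`, FDG.  Otherwise `¬ AgL 0 0 u v`: `Dg η` (LVE, LVT), FDG.
Otherwise, if some `AgL (m+1) 0 u v` fails: the least such `m`, the largest `j ≤ m + 2` with `AgL m j u v`; `Lv n m j η`
by LVE and LVT for `τ`.  For `k < m`, or `k = m`, `1 ≤ j`, and `Dp (k+1) v y`, `¬ Dp k v y`: `Ag (FF k v) u v` (`T.lvm`), so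
`T.che`, `T.trc` give a common chain and RBT gives `WR k (df ..) τ`.  FIN for `η`.  Otherwise FNL for `η`. -/
def KmdStmt : Prop := ∀ (n : ℕ) (β : FIC), Kn n β → ModF β

end Pool.Agent.MWKP
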