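import Pool.Agent.MWKP.Defs
import Pool.Agent.MWK.StmtsN
import Pool.Agent.Helper70_MWR.Gw
import Pool.Agent.Helper53_MWK.NKA
import Pool.Agent.Helper19_MWK.NTB
import Pool.Agent.Helper89_MWK.NTD

/-!
# MWKP, part N: necessity in the gamma world for period `n`

`xyx ≈ xyx^(n+1)`, not `xyx ≈ x^(n+1)yx^(n+1)`, modular, not completely regular, `x^2 ≈ x^(n+2)`.
Every row is the twin of a row of `MWK/StmtsN.lean` (name in brackets, complete proof there, Lean file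
`Helper*_MWK/NXX.lean`): copy the file and change it as described.  The properties `PA, PB, PC, PD` do not depend on
the period, and the rows NKA, NTB, NTD are used unchanged: `Pool.Agent.MWK.H53.nka`, `Pool.Agent.MWK.H19.ntb`,
`Pool.Agent.MWK.H89.ntd`.  `x^k` in the proofs is `List.replicate k x`.
-/

namespace Pool.Agent.MWKP

open Pool.Agent.Helper14_MV Pool.Agent.Helper2_MV Pool.Agent.MWK
open Pool.Agent.MWF (gaml)

/-- the gamma world outside beta, period `n` -/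
structure Gn (n : ℕ) (β : FIC) : Prop where
  pos : 1 ≤ n
  per : RR β [0, 0] (List.replicate (n + 2) 0)
  ncr : ∀ k : ℕ, 1 ≤ k → ¬ β.r (lx ^ (k + 1)) lx
  gm : RR β [0, 1, 0] (0 :: 1 :: List.replicate (n + 1) 0)
  nb : ¬ RR β [0, 1, 0] (List.replicate (n + 1) 0 ++ 1 :: List.replicate (n + 1) 0)

/-- `x^(n+1) y^(n+1) ≈ y^(n+1) x^(n+1)` -/
def Rn (n : ℕ) (β : FIC) : Prop :=
  RR β (List.replicate (n + 1) 0 ++ List.replicate (n + 1) 1)
    (List.replicate (n + 1) 1 ++ List.replicate (n + 1) 0)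

/-- **PWN** (easy) [MWF POW].  PROOF.  `x^i ~ x^(i+n)` for `i ≥ 2` (append `x^(i-2)` to `per`), induction. -/
def PwnStmt : Prop := ∀ (n : ℕ) (β : FIC), RR β [0, 0] (List.replicate (n + 2) 0) →
  ∀ c i j : ℕ, 2 ≤ i → 2 ≤ j → i ≡ j [MOD n] → RR β (List.replicate i c) (List.replicate j c)

/-- **CTN** (easy-medium) [MWF CTT, SIM].  Content and simple letters.
PROOF.  Filter the letter `c`, rename it to `0`: `0^a ~ 0^b`, `a = u.count c`, `b = v.count c`.  `a = 1`, `b ≥ 2`: excluded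
by `ncr` (`k = b - 1`; `lx = FreeMonoid.of 0`, `FreeMonoid.ofList (0^b) = lx ^ b`).  `a ≥ 1`, `b = 0`: `[] ~ 0^a`; append
`[0]`: `0 ~ 0^(a+1)`, excluded.  `a = 0`, `b ≥ 1`: the same with `RR.symm`. -/
def CtnStmt : Prop := ∀ (n : ℕ) (β : FIC), Gn n β → ∀ u v : List ℕ, RR β u v → ∀ c,
  (c ∈ u ↔ c ∈ v) ∧ (u.count c = 1 ↔ v.count c = 1)

/-- **NTN** (medium, uses PWN, CTN) [NTY].  The type `x t x^k` is preserved.
PROOF.  `w' = x^a t x^b`, `a + b ≥ 2` (CTN).  Substitute: `0 1 0^k ~ 0^a 1 0^b`.  If letters `0` stand in front, the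
exponent (`≥ 1`) of the last power may be changed by `n` (`gm`).  Append `0^M` with `M ≥ 1`, `k + M ≡ 1 [MOD n]`:
`0 1 0 ~ 0^a 1 0^c`, `c = b + M ≥ 1`.  (i) `a ≥ 2`: replace the factor `0 1 0` of `0^a 1 0^c` again and again:
`0 1 0 ~ 0^(1+t(a-1)) 1 0^(1+t(c-1))` for all `t ≥ 1`; `t = n`: `0 1 0 ~ 0^(n+1) 1 0^(n+1)` (PWN for the first power,
`gm` for the last one), excluded by `nb`.  (ii) `a = 0`: substitute `1 ↦ [0, 1]` in `0 1 0 ~ 1 0^c`: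
`0^2 1 0 ~ 0 1 0^c`; append `0^M'` with `M' ≥ 1`, `c + M' ≡ 1`: `0^2 1 0^(1+M') ~ 0 1 0`, case (i).  So `a = 1`, `b ≥ 1`. -/
def NtnStmt : Prop := ∀ (n : ℕ) (β : FIC), Gn n β → ∀ (x t : ℕ), x ≠ t → ∀ (k : ℕ) (w' : List ℕ),
  1 ≤ k → RR β (x :: t :: List.replicate k x) w' → ∃ k', 1 ≤ k' ∧ w' = x :: t :: List.replicate k' x

/-- **NAN** (medium, uses PWN, CTN) [NAA].
PROOF.  As NAA with `e_c = c^(2n)` in place of `c^2`: suppose `w' = 0^a 1^b 0 r`, `b ≥ 1`, `E(r) = r.flatMap (c ↦ c^(2n))`.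
Substitute `c ↦ c^(2n)`, put `0^(2n)` in front and `1^(2n)` behind: `e_0 e_1 ~ e_0 e_1 e_0 E(r) e_1`.  The zero is
`Z = (e_0 e_1)^2 = (0 1)^(2n)`: `Pool.Agent.Helper70_MWR.Hg.wc` gives `Wc n (MM β)`, with the facts `Wc.zdef, zsymm, ee, ez,
ez', ze, ze'` of Helper70_MWR/Alg.lean; `ev_eq`, `rr_iff` (Helper70_MWR, Helper44_MVT) translate `RR β`.
`e_0 e_1 e_0 E(r) e_1 = Z`: induction on `r` (`r = 0 :: r'`: `e_0 e_0 = e_0`; `r = 1 :: r'`: `(e_0 e_1)^2 = Z` absorbs all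
the `e_c` behind it).  So `e_0 e_1 = Z`; exchange the names: `e_1 e_0 = Z` (`zsymm`).  Contradiction. -/
def NanStmt : Prop := ∀ (n : ℕ) (β : FIC), ModF β → Gn n β →
  ¬ RR β (List.replicate (2 * n) 0 ++ List.replicate (2 * n) 1)
    (List.replicate (2 * n) 1 ++ List.replicate (2 * n) 0) →
  ∀ w w' : List ℕ, RR β w w' → PA w → PA w'

/-- **NPN** (medium, uses CTN, NTN) [NPB].  PROOF.  As NPB (it uses only the content and NTY). -/
def NpnStmt : Prop := ∀ (n : ℕ) (β : FIC), Gn n β → (∀ w w' : List ℕ, RR β w w' → PA w → PA w') →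
  ∀ w w' : List ℕ, RR β w w' → PB w → PB w'

/-- **NRN** (easy-medium, uses NAN, NPN) [NR0].  Idempotents commute.
PROOF.  As NR0 (`Pool.Agent.MWK.H53.nka`, `Pool.Agent.MWK.H19.ntb`), nothing else depends on the period. -/
def NrnStmt : Prop := ∀ (n : ℕ) (β : FIC), ModF β → Gn n β →
  RR β (List.replicate (2 * n) 0 ++ List.replicate (2 * n) 1)
    (List.replicate (2 * n) 1 ++ List.replicate (2 * n) 0)

/-- **R0N** (easy, uses NRN).  **`x^a y^b ≈ y^b x^a` for `a, b ≥ 2`.**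
PROOF.  `Pool.Agent.Helper70_MWR.Hg.wc` gives `Wc n (MM β)`, then `Pool.Agent.Helper70_MWR.Wc.r0`. -/
def R0nStmt : Prop := ∀ (n : ℕ) (β : FIC), ModF β → Gn n β → ∀ a b : ℕ, 2 ≤ a → 2 ≤ b →
  RR β (List.replicate a 0 ++ List.replicate b 1) (List.replicate b 1 ++ List.replicate a 0)

/-- **NMN** (medium, uses PWN, CTN, NTN) [NMC].  `PC` is preserved, if `xytxy ≈ yxtxy` does not hold.
PROOF.  As NMC; in the second case `RR β (0 1 2 m) (1 0 2 m')`, `m`, `m'` contain `0` and `1`.  If a word `A` contains `0`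
and `1` then behind `A` the letters `0`, `1` commute (`A c ~ A c^(n+1)` by `gm`, `Rn`), and `A c^n ~ A` if a `c` stands
at the end of `A` (`gm`).  So `m ~ 0^i 1^j`, `m' ~ 0^i' 1^j'` (`i, j, i', j' ≥ 1`) behind `0 1 2`, `1 0 2`.  Deleting `1, 2`:
`0^(1+i) ~ 0^(1+i')`.  Append `0^(1+i')` to both words; in the right word replace it by `0^(1+i)`:
`0 1 2 0^(i+i'+1) 1^j ~ 1 0 2 0^(i+i'+1) 1^j'`; the same for `1`.  Append powers such that all exponents are `≡ 1`: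
`0 1 2 0 1 ~ 1 0 2 0 1`, excluded. -/
def NmnStmt : Prop := ∀ (n : ℕ) (β : FIC), Gn n β → Rn n β →
  ¬ RR β [0, 1, 2, 0, 1] [1, 0, 2, 0, 1] → ∀ w w' : List ℕ, RR β w w' → PC w → PC w'

/-- **NEN** (easy-medium) [NEC].  `x^2 t ≈ x^2 t x^n` and `x t x ≈ x t x^(n+1)` preserve `PC`.
PROOF.  As NEC (add or delete `n` copies of `X`). -/
def NenStmt : Prop := ∀ n : ℕ, 1 ≤ n → RR (gaml PC) [0, 0, 1] (0 :: 0 :: 1 :: List.replicate n 0) ∧
  RR (gaml PC) [0, 1, 0] (0 :: 1 :: List.replicate (n + 1) 0)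

/-- **NDN** (medium, uses PWN, CTN, NTN) [NMD].  `PD` is preserved, if `x^2y ≈ x^2yx^n` does not hold.
PROOF.  As NMD; only the step `0^(k+1) 1 ~ 0^b 1 0^c`, `c ≥ 1`, is different: put `0^M` in front, `M ≥ 2`,
`M + k + 1 ≡ 2 [MOD n]`: `0 0 1 ~ 0^(M+b) 1 0^c` (PWN).  The right side is `~ 0^(M+b) 1 0^c 0^n` (`gm`), so
`0 0 1 ~ 0 0 1 0^n`, excluded. -/
def NdnStmt : Prop := ∀ (n : ℕ) (β : FIC), Gn n β → ¬ RR β [0, 0, 1] (0 :: 0 :: 1 :: List.replicate n 0) →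
  ∀ w w' : List ℕ, RR β w w' → PD w → PD w'

/-- **NXN** (medium, uses NMN, NEN, NDN) [ND1].  **In the gamma world outside beta modularity forces
`x^2y ≈ x^2yx^n` or `xytxy ≈ yxtxy`.**
PROOF.  As ND1; the chain is `u = 0 1 2 0 3 1 ~σ 0 1 2 0 3 0^n 1` (`x t x s ~ x t x^(n+1) s ~ x t x^(n+1) s x^n ~ x t x s x^n` by
NEN), `~ρ 1 0 2 0 3 0^n 1` (`xytxy ≈ yxtxy` with `t ↦ [2, 0, 3] ++ 0^(n-1)`), `~σ 1 0 2 0 3 1`. -/
def NxnStmt : Prop := ∀ (n : ℕ) (β : FIC), ModF β → Gn n β → Rn n β →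
  RR β [0, 0, 1] (0 :: 0 :: 1 :: List.replicate n 0) ∨ RR β [0, 1, 2, 0, 1] [1, 0, 2, 0, 1]

end Pool.Agent.MWKP
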